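import Pool.Agent.P8H72.SC.Asm

/-!
# Möbius disjointness for automorphisms whose invariant states are atomic or recurrent
-/

set_option autoImplicit false

open Filter Topology Finset

namespace Pool.Agent.Results.MP_7a8f48_an.AtomicInvariantStates

universe u v

/-- the Möbius function -/
def mu (n : ℕ) : ℤ := ArithmeticFunction.moebius n

/-- the Liouville function -/
def lam (n : ℕ) : ℤ := (-1) ^ ArithmeticFunction.cardFactors n

section defs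

variable {A : Type u} [NonUnitalCStarAlgebra A]

/-- positive functionals -/
def Positive (φ : A →L[ℂ] ℂ) : Prop := ∀ a, 0 ≤ (φ (star a * a)).re ∧ (φ (star a * a)).im = 0

/-- `0 ≤ ψ ≤ φ` -/
def Below (ψ φ : A →L[ℂ] ℂ) : Prop := Positive ψ ∧ Positive (φ - ψ)

/-- pure functionals: the positive functionals `ω` such that each `ψ` with `0 ≤ ψ ≤ ω` is a multiple of `ω`
(multiples `t ω`, `t ≥ 0`, of pure states) -/
def Pure (ω : A →L[ℂ] ℂ) : Prop := Positive ω ∧ ∀ ψ : A →L[ℂ] ℂ, Below ψ ω → ∃ t : ℝ, ψ = (t : ℂ) • ω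

/-- atomic functionals: the sums, convergent in norm, of sequences of pure functionals -/
def Atomic (φ : A →L[ℂ] ℂ) : Prop := ∃ ω : ℕ → (A →L[ℂ] ℂ), (∀ i, Pure (ω i)) ∧ HasSum ω φ

/-- `φ` is invariant under the automorphism `α` -/
def Invariant (α : A ≃⋆ₐ[ℂ] A) (φ : A →L[ℂ] ℂ) : Prop := ∀ a, φ (α a) = φ a

/-- `φ` is recurrent at `x`: for each `ψ` with `0 ≤ ψ ≤ φ` and each `ε > 0` the set of the times `h ≥ 1` with
`|ψ(αʰ(x)) - ψ(x)| < ε` has positive upper density -/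
def Recurrent (α : A ≃⋆ₐ[ℂ] A) (φ : A →L[ℂ] ℂ) (x : A) : Prop :=
  ∀ ψ : A →L[ℂ] ℂ, Below ψ φ → ∀ ε : ℝ, 0 < ε → ∃ d : ℝ, 0 < d ∧ ∀ K₀ : ℕ, ∃ K ≥ K₀,
    d * K ≤ (((Icc 1 K).filter fun h => ‖ψ ((α ^ h) x) - ψ x‖ < ε).card : ℝ)

/-- `φ` is a weak* cluster point, for `N → ∞`, of the averages `(1/N) ∑_{n ≤ N} ρ ∘ αⁿ` of the elements `ρ` of
`S` -/
def ClusterPoint (α : A ≃⋆ₐ[ℂ] A) (S : Set (A →L[ℂ] ℂ)) (φ : A →L[ℂ] ℂ) : Prop :=
  ∀ (F : Finset A) (ε : ℝ), 0 < ε → ∀ N₀ : ℕ, ∃ N ≥ N₀, ∃ ρ ∈ S, ∀ a ∈ F,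
    ‖(1 / (N : ℂ)) * ∑ n ∈ Icc 1 N, ρ ((α ^ n) a) - φ a‖ < ε

end defs

/-- the sum of `h m e(mθ) y m` over the `m` in `S`, where `e(t) = exp(2 π i t)` -/
noncomputable def twistedSum {X : Type v} [NormedAddCommGroup X] [NormedSpace ℂ X] (h : ℕ → ℤ) (θ : ℝ)
    (S : Finset ℕ) (y : ℕ → X) : X :=
  ∑ m ∈ S, ((h m : ℂ) * Complex.exp (2 * Real.pi * Complex.I * m * θ)) • y m

/-- The sequences `y i` are disjoint from `h`, uniformly in `i` and in the twist: in mean square over the windows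
of length `H`, and for the long averages. -/
def UniformlyDisjoint {ι : Type u} {X : Type v} [NormedAddCommGroup X] [NormedSpace ℂ X] (h : ℕ → ℤ)
    (y : ι → ℕ → X) : Prop :=
  ∀ ε : ℝ, 0 < ε →
    (∃ H0 : ℕ, ∀ H ≥ H0, ∀ N ≥ H, ∀ (θ : ℝ) (i : ι),
      ∑ n ∈ range N, ‖twistedSum h θ (Ioc n (n + H)) (y i)‖ ^ 2 ≤ ε * H ^ 2 * N) ∧
    ∃ N0 : ℕ, ∀ N ≥ N0, ∀ (θ : ℝ) (i : ι), ‖twistedSum h θ (Icc 1 N) (y i)‖ ≤ ε * N

/-- uniform disjointness from the Möbius and the Liouville function -/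
def Disjoint' {ι : Type u} {X : Type v} [NormedAddCommGroup X] [NormedSpace ℂ X] (y : ι → ℕ → X) : Prop :=
  UniformlyDisjoint mu y ∧ UniformlyDisjoint lam y

/-- Möbius disjointness as in the problem, for all bounded functionals -/
def MobiusDisjoint {A : Type u} [NonUnitalCStarAlgebra A] (α : A ≃⋆ₐ[ℂ] A) : Prop :=
  ∀ (x : A) (ρ : A →L[ℂ] ℂ), Tendsto (fun N : ℕ => (1 / (N : ℂ)) *
      ∑ n ∈ Icc 1 N, ((ArithmeticFunction.moebius n : ℤ) : ℂ) * ρ ((α ^ n) x)) atTop (𝓝 0)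

/-- the long twisted averages of the orbit of `x` tend to zero in norm, uniformly in the twist -/
def NormSmall {A : Type u} [NonUnitalCStarAlgebra A] (α : A ≃⋆ₐ[ℂ] A) (h : ℕ → ℤ) (x : A) : Prop :=
  ∀ ε : ℝ, 0 < ε → ∃ N0 : ℕ, ∀ N ≥ N0, ∀ θ : ℝ, ‖twistedSum h θ (Icc 1 N) (fun m => (α ^ m) x)‖ ≤ ε * N

/-- The automorphism is Möbius disjoint, the twisted averages of each orbit tend to zero in norm, and the sequences
`ρ(αⁿ(x))`, for `ρ` in the unit ball of the dual space, are uniformly disjoint from the Möbius and the Liouville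
function, for the long averages and in the mean over short windows. -/
def FullyDisjoint {A : Type u} [NonUnitalCStarAlgebra A] (α : A ≃⋆ₐ[ℂ] A) : Prop :=
  MobiusDisjoint α ∧ ∀ x : A, NormSmall α mu x ∧ NormSmall α lam x ∧
    Disjoint' (fun (ρ : {ρ : A →L[ℂ] ℂ // ‖ρ‖ ≤ 1}) n => ρ.1 ((α ^ n) x))

/-- (A) Let `S` be a bounded set of positive functionals and `x` an element. If each invariant cluster point of the
averages of the `ρ` in `S` is atomic or is recurrent at `x`, then the sequences `ρ(αⁿ(x))` are disjoint from the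
Möbius and the Liouville function, uniformly for `ρ` in `S`. -/
def PartA {A : Type u} [NonUnitalCStarAlgebra A] (α : A ≃⋆ₐ[ℂ] A) : Prop :=
  ∀ (S : Set (A →L[ℂ] ℂ)) (R : ℝ) (x : A), (∀ ρ ∈ S, Positive ρ ∧ ‖ρ‖ ≤ R) →
    (∀ φ : A →L[ℂ] ℂ, Positive φ → Invariant α φ → ClusterPoint α S φ → Atomic φ ∨ Recurrent α φ x) →
    Disjoint' (fun (ρ : S) n => ρ.1 ((α ^ n) x))

/-- (B) Let `D` be a set with dense span such that each invariant positive functional is atomic or is recurrent at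
each element of `D`. Then the automorphism is disjoint from the Möbius and the Liouville function, in norm. -/
def PartB {A : Type u} [NonUnitalCStarAlgebra A] (α : A ≃⋆ₐ[ℂ] A) : Prop :=
  ∀ D : Set A, Dense (Submodule.span ℂ D : Set A) →
    (∀ φ : A →L[ℂ] ℂ, Positive φ → Invariant α φ → ∀ x ∈ D, Atomic φ ∨ Recurrent α φ x) → FullyDisjoint α

/-- scattered C*-algebras: each positive functional is atomic -/
def Scattered (A : Type u) [NonUnitalCStarAlgebra A] : Prop := ∀ φ : A →L[ℂ] ℂ, Positive φ → Atomic φ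

open Pool.Agent.P8H72.SC Pool.Agent.R296.SM

section proofs

variable {A : Type u} [NonUnitalCStarAlgebra A]

theorem pos_iff (φ : A →L[ℂ] ℂ) : Positive φ ↔ Pos φ := by
  constructor
  · intro h a
    exact Complex.nonneg_iff.2 ⟨(h a).1, (h a).2.symm⟩
  · intro h a
    exact ⟨h.re a, h.im a⟩

theorem pure_of {ω : A →L[ℂ] ℂ} (h : Pure ω) : PureF ω :=
  ⟨(pos_iff ω).1 h.1, fun ψ h1 h2 => h.2 ψ ⟨(pos_iff _).2 h1, (pos_iff _).2 h2⟩⟩

theorem atomic_of {φ : A →L[ℂ] ℂ} (h : Atomic φ) : AtomicF φ := by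
  obtain ⟨ω, h1, h2⟩ := h
  exact ⟨ω, fun i => pure_of (h1 i), h2⟩

theorem rec_of {α : A ≃⋆ₐ[ℂ] A} {φ : A →L[ℂ] ℂ} {x : A} (hinv : Invariant α φ) (h : Atomic φ ∨ Recurrent α φ x) :
    RecF α φ x := by
  rcases h with h | h
  · exact rec_of_atomic (atomic_of h) hinv x
  · intro ψ h1 h2 ε hε
    exact h ψ ⟨(pos_iff _).2 h1, (pos_iff _).2 h2⟩ ε hε

theorem uniformlyDisjoint_of {f : ℕ → ℤ} (hf : ∀ n, |f n| ≤ 1) {ι : Type v} {y : ι → ℕ → ℂ} {B : ℝ}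
    (hy : ∀ i n, ‖y i n‖ ≤ B) (h : DjT f y) : UniformlyDisjoint f y := by
  intro ε hε
  obtain ⟨H₀, h1⟩ := h.win2 hf hy ε hε
  obtain ⟨N₀, h2⟩ := h.long ε hε
  exact ⟨⟨H₀, fun H hH N hN θ i => h1 H hH N hN θ i⟩, ⟨N₀, fun N hN θ i => h2 N hN θ i⟩⟩

theorem mu_one (n : ℕ) : |mu n| ≤ 1 := ArithmeticFunction.abs_moebius_le_one

theorem lam_one (n : ℕ) : |lam n| ≤ 1 := by
  unfold lam
  rw [abs_pow, abs_neg, abs_one, one_pow]

theorem partA (α : A ≃⋆ₐ[ℂ] A) : PartA α := by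
  intro S R x hS hφ
  obtain ⟨K, i1, i2, i3, π, ξ, hξ1, hξ2⟩ := gnsAll A
  have hR : ∀ ρ : S, ‖ξ ⟨ρ.1, (pos_iff _).1 (hS ρ.1 ρ.2).1⟩‖ ≤ Real.sqrt R := by
    intro ρ
    apply Real.le_sqrt_of_sq_le
    rw [hξ2]
    exact (hS ρ.1 ρ.2).2
  have hrr : ∀ ρ : S, rr π (ξ ⟨ρ.1, (pos_iff _).1 (hS ρ.1 ρ.2).1⟩) = fun a => ρ.1 a := by
    intro ρ
    funext a
    exact hξ1 _ a
  have key : ∀ f : ℕ → ℤ, (∀ n, |f n| ≤ 1) → NT f → UniformlyDisjoint f (fun (ρ : S) n => ρ.1 ((α ^ n) x)) := by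
    intro f hf hNT
    refine uniformlyDisjoint_of hf (B := R * ‖x‖) (fun ρ n => ?_) ?_
    · refine (ρ.1.le_opNorm _).trans ?_
      rw [norm_pow_apply]
      exact mul_le_mul_of_nonneg_right (hS ρ.1 ρ.2).2 (norm_nonneg _)
    · intro ε hε
      obtain ⟨N₀, h1⟩ := dom (α := α) (π := π) (Ξ := fun ρ : S => ξ ⟨ρ.1, (pos_iff _).1 (hS ρ.1 ρ.2).1⟩) hf hNT hR x
        (fun φ h1 h2 h3 => rec_of h2 (hφ φ ((pos_iff _).2 h1) h2 (by
          intro F ε hε N₀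
          obtain ⟨N, hN, i, hi⟩ := h3 F ε hε N₀
          refine ⟨N, hN, i.1, i.2, fun a ha => ?_⟩
          have := hi a ha
          unfold av at this
          simp only [hrr] at this
          exact this))) ε hε
      refine ⟨N₀, fun N hN T hT θ i => ?_⟩
      have := h1 N hN T hT θ i
      simp only [hrr] at this
      exact this
  exact ⟨key mu mu_one nt_mu, key lam lam_one nt_lam⟩

theorem full_of (α : A ≃⋆ₐ[ℂ] A) (hmu : ∀ x, DjN α mu x) (hlam : ∀ x, DjN α lam x) : FullyDisjoint α := by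
  have hB : ∀ (x : A) (ρ : {ρ : A →L[ℂ] ℂ // ‖ρ‖ ≤ 1}) (n : ℕ), ‖ρ.1 ((α ^ n) x)‖ ≤ ‖x‖ := by
    intro x ρ n
    refine (ρ.1.le_opNorm _).trans ?_
    rw [norm_pow_apply]
    exact mul_le_of_le_one_left (norm_nonneg _) ρ.2
  have hN : ∀ (f : ℕ → ℤ) (x : A), DjN α f x → NormSmall α f x := by
    intro f x h ε hε
    obtain ⟨N₀, h1⟩ := h ε hε
    refine ⟨N₀, fun N hN θ => ?_⟩
    have h2 := h1 N hN _ (slow_one N₀) θ
    unfold Wt at h2
    simp only [mul_one] at h2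
    exact h2
  refine ⟨fun x ρ => ?_, fun x => ⟨hN mu x (hmu x), hN lam x (hlam x),
    uniformlyDisjoint_of mu_one (hB x) ((hmu x).func (fun ρ : {ρ : A →L[ℂ] ℂ // ‖ρ‖ ≤ 1} => ρ.1) 1 (fun ρ => ρ.2)),
    uniformlyDisjoint_of lam_one (hB x) ((hlam x).func (fun ρ : {ρ : A →L[ℂ] ℂ // ‖ρ‖ ≤ 1} => ρ.1) 1 (fun ρ => ρ.2))⟩⟩
  have h1 := (hmu x).func (fun _ : Unit => ρ) ‖ρ‖ (fun _ => le_rfl)
  rw [Metric.tendsto_atTop]
  intro ε hε
  obtain ⟨N₀, h2⟩ := h1.long (ε / 2) (by positivity)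
  refine ⟨N₀ + 1, fun N hN => ?_⟩
  have hNr : (0 : ℝ) < N := by exact_mod_cast (by omega : 0 < N)
  have h3 := h2 N (by omega) 0 ()
  have e1 : ∑ n ∈ Icc 1 N, ((mu n : ℂ) * Complex.exp (2 * Real.pi * Complex.I * n * ((0 : ℝ) : ℂ))) * ρ ((α ^ n) x) =
      ∑ n ∈ Icc 1 N, ((ArithmeticFunction.moebius n : ℤ) : ℂ) * ρ ((α ^ n) x) := by
    refine sum_congr rfl fun n _ => ?_
    simp [mu]
  rw [e1] at h3
  rw [dist_zero_right, norm_mul, norm_div, norm_one, Complex.norm_natCast, one_div, inv_mul_lt_iff₀ hNr]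
  nlinarith

theorem partB (α : A ≃⋆ₐ[ℂ] A) : PartB α := by
  intro D hD hφ
  have key : ∀ f : ℕ → ℤ, (∀ n, |f n| ≤ 1) → NT f → ∀ x, DjN α f x := by
    intro f hf hNT x
    refine DjN.closure hf (D := D) (fun u hu => ?_) (hD x)
    exact normDj hf hNT u fun φ h1 h2 => rec_of h2 (hφ φ ((pos_iff _).2 h1) h2 u hu)
  exact full_of α (key mu mu_one nt_mu) (key lam lam_one nt_lam)

end proofs

/-- (A), (B) for each automorphism of each C*-algebra, and: each automorphism of a scattered C*-algebra is disjoint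
from the Möbius and the Liouville function, in norm. -/
theorem result (A : Type u) [NonUnitalCStarAlgebra A] :
    (∀ α : A ≃⋆ₐ[ℂ] A, PartA α ∧ PartB α) ∧ (Scattered A → ∀ α : A ≃⋆ₐ[ℂ] A, FullyDisjoint α) := by
  refine ⟨fun α => ⟨partA α, partB α⟩, fun hA α => ?_⟩
  refine partB α Set.univ ?_ fun φ hφ _ x _ => Or.inl (hA φ hφ)
  rw [Submodule.span_univ]
  exact dense_univ

end Pool.Agent.Results.MP_7a8f48_an.AtomicInvariantStates
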