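import Pool.Agent.P8H24.NU.Gp

/-!
# Möbius disjointness of endomorphisms of C*-algebras generated by unitaries of nilpotent type

The main steps are in `Pool.Agent.P8H24.NU`: Möbius orthogonality of all polynomial sequences in
nilpotent groups of unitary operators (`Main.lean`), the orbits (`Orb.lean`), products of
functionals and systems (`NS.lean`, `Fin.lean`), projective representations and positive definite
functions (`Gp.lean`).
-/

set_option autoImplicit false

open Filter Topology
open scoped ComplexOrder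

namespace Pool.Agent.Results.MP_7a8f48_an.NilpotentUnitaries

/-- the Möbius function with complex values -/
noncomputable def mu (n : ℕ) : ℂ := ((ArithmeticFunction.moebius n : ℤ) : ℂ)

section groups

variable {G : Type} [Group G]

/-- the difference map `h ↦ h⁻¹ σᵐ(h)` -/
def diff (σ : G →* G) (m : ℕ) (h : G) : G := h⁻¹ * (σ^[m]) h

/-- The element `g` is of nilpotent type for the endomorphism `σ`: for some `m > 0` some iterate of
the difference map `D : h ↦ h⁻¹ σᵐ(h)` maps `g` to `1`, and the group generated by `D g`, `D² g`,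
`D³ g`, ... is virtually nilpotent (of any class). -/
def NilpotentType (σ : G →* G) (g : G) : Prop :=
  ∃ m : ℕ, 0 < m ∧ (∃ k : ℕ, ((diff σ m)^[k]) g = 1) ∧
    Group.IsVirtuallyNilpotent (Subgroup.closure {x : G | ∃ i : ℕ, x = ((diff σ m)^[i + 1]) g})

/-- the endomorphism `σ` is locally quasi-unipotent: for each `g` some iterate of the map
`h ↦ h⁻¹ σᵐ(h)`, for some `m > 0`, maps `g` to `1` -/
def QuasiUnipotent (σ : G →* G) : Prop :=
  ∀ g : G, ∃ m : ℕ, 0 < m ∧ ∃ k : ℕ, ((diff σ m)^[k]) g = 1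

/-- all finitely generated subgroups of `G` are virtually nilpotent -/
def LocallyVirtuallyNilpotent (G : Type) [Group G] : Prop :=
  ∀ K : Subgroup G, K.FG → Group.IsVirtuallyNilpotent K

/-- positive definite functions on `G`: the matrix `φ(g⁻¹ h)`, `g`, `h` in `G`, is positive
semidefinite -/
def PositiveDefinite (φ : G → ℂ) : Prop :=
  (Matrix.of fun g h : G => φ (g⁻¹ * h)).PosSemidef

end groups

section defs

variable {W : Type} [CStarAlgebra W]

/-- the endomorphism of the unitary group which is induced by `γ` -/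
def onUnitary (γ : W →⋆ₐ[ℂ] W) : unitary W →* unitary W where
  toFun g := ⟨γ g, Unitary.map_mem γ g.2⟩
  map_one' := Subtype.ext (map_one γ)
  map_mul' g h := Subtype.ext (map_mul γ (g : W) h)

/-- `w` is an eigenvector of `γ`, with an eigenvalue of modulus one -/
def Eigenvector (γ : W →⋆ₐ[ℂ] W) (w : W) : Prop := ∃ l : ℂ, ‖l‖ = 1 ∧ γ w = l • w

/-- the products `v * y * w` with `y` in `S` and eigenvectors `v`, `w` of `γ` span a dense subspace -/
def Generates (γ : W →⋆ₐ[ℂ] W) (S : Set W) : Prop :=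
  (Submodule.span ℂ {x : W | ∃ y ∈ S, ∃ v w, Eigenvector γ v ∧ Eigenvector γ w ∧
    x = v * y * w}).topologicalClosure = ⊤

/-- Möbius disjointness of the orbits, in the strong operator topology of all representations -/
def StronglyDisjoint (γ : W →⋆ₐ[ℂ] W) : Prop :=
  ∀ (x : W) (K : Type) [NormedAddCommGroup K] [InnerProductSpace ℂ K] [CompleteSpace K]
    (π : W →⋆ₐ[ℂ] (K →L[ℂ] K)) (ξ : K),
    Tendsto (fun N : ℕ => (1 / (N : ℂ)) • ∑ n ∈ Finset.Icc 1 N, mu n • π ((γ^[n]) x) ξ) atTop (𝓝 0)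

/-- Möbius disjointness for the products of the values of any number of bounded functionals along
any orbits; for `r = 1` this is the Möbius disjointness of the problem, for all bounded functionals -/
def FunctionalsDisjoint (γ : W →⋆ₐ[ℂ] W) : Prop :=
  ∀ (r : ℕ) (ρ : Fin r → (W →L[ℂ] ℂ)) (x : Fin r → W),
    Tendsto (fun N : ℕ => (1 / (N : ℂ)) * ∑ n ∈ Finset.Icc 1 N,
      mu n * ∏ i, ρ i ((γ^[n]) (x i))) atTop (𝓝 0)

/-- Möbius disjointness, with all continuous functions `f` and all points, of all the compact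
systems of functionals: a self-map `T` of a compact space `X` whose points are separated by the
values `ρ i x a` of bounded functionals `ρ i x` on `W`, `i ∈ I`, which are continuous in `x`, with
`ρ i (T x) = ρ i x ∘ γ`. For example `X` is the state space of `W` with the weak* topology and
`T ρ = ρ ∘ γ`. -/
def SystemsDisjoint (γ : W →⋆ₐ[ℂ] W) : Prop :=
  ∀ (X : Type) [TopologicalSpace X] [CompactSpace X] (T : X → X) (I : Type)
    (ρ : I → X → (W →L[ℂ] ℂ)), (∀ i a, Continuous fun x => ρ i x a) →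
    (∀ i x a, ρ i (T x) a = ρ i x (γ a)) → (∀ x y, x ≠ y → ∃ i a, ρ i x a ≠ ρ i y a) →
    ∀ (f : C(X, ℂ)) (x : X), Tendsto (fun N : ℕ => (1 / (N : ℂ)) *
      ∑ n ∈ Finset.Icc 1 N, mu n * f ((T^[n]) x)) atTop (𝓝 0)

/-- the three forms of Möbius disjointness -/
def Disjoint3 (γ : W →⋆ₐ[ℂ] W) : Prop :=
  StronglyDisjoint γ ∧ FunctionalsDisjoint γ ∧ SystemsDisjoint γ

/-- `α` is Möbius disjoint in the three forms, and so is each system `(B, β)` in which the products
`v * ι a * w` span a dense subspace, for an equivariant `ι : A → B`, `a` in `A` and eigenvectors `v`,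
`w` of `β`, and each system `(V, δ)` which embeds in such a `(B, β)`. -/
def AllDisjoint {A : Type} [CStarAlgebra A] (α : A →⋆ₐ[ℂ] A) : Prop :=
  Disjoint3 α ∧
  ∀ (B : Type) [CStarAlgebra B] (β : B →⋆ₐ[ℂ] B) (ι : A →⋆ₐ[ℂ] B),
    (∀ a, β (ι a) = ι (α a)) → Generates β (Set.range ι) →
    Disjoint3 β ∧
    ∀ (V : Type) [CStarAlgebra V] (δ : V →⋆ₐ[ℂ] V) (κ : V →⋆ₐ[ℂ] B), Function.Injective κ →
      (∀ v, κ (δ v) = β (κ v)) → Disjoint3 δ

end defs

open Pool.Agent.Helper188.NCM Pool.Agent.TH261.AB Pool.Agent.TH261.NP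
open Pool.Agent.P8H24.NU hiding Sc Proj QU Multi

section proofs

variable {U : Type} [CStarAlgebra U]

theorem sum_eq {K : Type*} [NormedAddCommGroup K] [NormedSpace ℂ K] {a : ℕ → K}
    (h : Tendsto (vav fun n => mob n • a n) atTop (𝓝 0)) :
    Tendsto (fun N : ℕ => (1 / (N : ℂ)) • ∑ n ∈ Finset.Icc 1 N, mu n • a n) atTop (𝓝 0) :=
  vav_Icc (a := fun n => mob n • a n) (by simp [mob]) h

theorem ext_functional {V : Type} [CStarAlgebra V] (κ : V →⋆ₐ[ℂ] U) (hκ : Function.Injective κ)
    (φ : V →L[ℂ] ℂ) : ∃ ψ : U →L[ℂ] ℂ, ∀ x, ψ (κ x) = φ x := by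
  have hiso : ∀ x : V, ‖κ x‖ = ‖x‖ := fun x => NonUnitalStarAlgHom.norm_map κ hκ x
  let κl : V →ₗᵢ[ℂ] U := ⟨κ.toAlgHom.toLinearMap, hiso⟩
  let e := κl.equivRange
  let p : Submodule ℂ U := LinearMap.range κl.toLinearMap
  obtain ⟨ψ, hψ, -⟩ := exists_extension_norm_eq p (φ.comp
    (e.symm.toContinuousLinearEquiv : p →L[ℂ] V))
  refine ⟨ψ, fun x => ?_⟩
  have := hψ (e x)
  have h2 : ((e x : p) : U) = κ x := rfl
  rw [h2] at this
  rw [this]
  simp

theorem multi_embed {V : Type} [CStarAlgebra V] {β : U →⋆ₐ[ℂ] U}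
    (h : Pool.Agent.P8H24.NU.Multi β) (δ : V →⋆ₐ[ℂ] V)
    (κ : V →⋆ₐ[ℂ] U) (hκ : Function.Injective κ) (hδ : ∀ v, κ (δ v) = β (κ v)) :
    Pool.Agent.P8H24.NU.Multi δ := by
  have hn : ∀ (n : ℕ) v, κ ((δ^[n]) v) = (β^[n]) (κ v) := by
    intro n
    induction n with
    | zero => intro v; rfl
    | succ n ih =>
      intro v
      rw [Function.iterate_succ_apply', Function.iterate_succ_apply', hδ, ih]
  choose ψ hψ using ext_functional κ hκ
  intro L
  refine (h (L.map fun p => (ψ p.1, κ p.2))).congr fun N => ?_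
  rw [vav, vav]
  congr 1
  refine Finset.sum_congr rfl fun n _ => ?_
  rw [List.map_map]
  congr 2
  refine List.map_congr_left fun p _ => ?_
  simp only [Function.comp_apply]
  rw [← hn, hψ]

theorem disjoint3_of {γ : U →⋆ₐ[ℂ] U} (h1 : ∀ x, Good γ x)
    (h2 : Pool.Agent.P8H24.NU.Multi γ) : Disjoint3 γ := by
  refine ⟨fun x K _ _ _ π ξ => sum_eq (h1 x K π ξ), fun r ρ x => ?_,
    fun X _ _ T I ρ hc hρ hs f x => ?_⟩
  · have h3 := sum_eq (K := ℂ) (h2 (List.ofFn fun i => (ρ i, x i)))
    refine h3.congr fun N => ?_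
    rw [smul_eq_mul]
    congr 1
    refine Finset.sum_congr rfl fun n _ => ?_
    rw [smul_eq_mul, List.map_ofFn, List.prod_ofFn]
    rfl
  · exact sum_eq (K := ℂ) (top_of_multi γ h2 T ρ hc hρ hs f x)

/-- systems generated by elements with polynomial orbits -/
theorem allDisjoint_of_orb {α : U →⋆ₐ[ℂ] U} {S : Set U} (hS : ∀ x ∈ S, OrbF α x)
    (hd : Generates α S) : AllDisjoint α := by
  have h1 : ∀ x ∈ {x : U | ∃ y ∈ S, ∃ v w, Eigenvector α v ∧ Eigenvector α w ∧ x = v * y * w},
      OrbF α x := by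
    rintro x ⟨y, hy, v, w, hv, hw, rfl⟩
    exact (hS y hy).mul hv hw
  refine ⟨?_, fun B _ β ι hι hgen => ?_⟩
  · obtain ⟨h2, h3⟩ := both_of h1 hd
    exact disjoint3_of h2 h3
  · obtain ⟨h2, h3⟩ := both_ext h1 hd hι hgen
    exact ⟨disjoint3_of h2 h3, fun V _ δ κ hκ hδ =>
      disjoint3_of (Good.embed h2 δ κ hκ hδ) (multi_embed h3 δ κ hκ hδ)⟩

/-- conjugation by the unitaries of a projective representation covers conjugation in the group -/
theorem cov_inner {G : Type} [Group G] {u : G → U} (hu : ∀ g, u g ∈ unitary U)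
    (hmul : ∀ g h, ∃ c : ℂ, ‖c‖ = 1 ∧ u (g * h) = c • (u g * u h)) {h : G} {α : U →⋆ₐ[ℂ] U}
    (hα : ∀ x, α x = u h * x * star (u h)) (g : G) :
    ∃ c : ℂ, ‖c‖ = 1 ∧ α (u g) = c • u ((MulAut.conj h).toMonoidHom g) := by
  have hP : Pool.Agent.P8H24.NU.Proj u (MonoidHom.id G) (StarAlgHom.id ℂ U) :=
    ⟨hu, hmul, fun g => ⟨1, norm_one, by rw [one_smul]; rfl⟩⟩
  have h1 := (hP.mul (h * g) h⁻¹).trans ((hP.mul h g).mul (hP.inv h))
  obtain ⟨c, hc, h2⟩ := h1.symm
  exact ⟨c, hc, by rw [hα]; exact h2⟩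

end proofs

/-- **Möbius disjointness of C*-systems generated by unitaries of nilpotent type.**

1. Let `α` be an endomorphism of the unital C*-algebra `U`. If the products `v * g * w`, where `g` is
a unitary of nilpotent type and `v`, `w` are eigenvectors of `α`, span a dense subspace of `U`, then
`α` is Möbius disjoint: in the strong operator topology of every representation, for the products of
any number of bounded functionals, and for all continuous functions on all compact systems of
functionals (such as the state space); and so is each system `(B, β)` in which the products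
`v * ι a * w`, for an equivariant `ι : U → B` and eigenvectors `v`, `w` of `β`, span a dense subspace,
and each subsystem of such a system.

2. The same holds if the unitaries `g` are replaced by the unitaries `u g` of a projective
representation of a group `G`, and `α` covers an endomorphism `σ` of `G` for which all elements of
`G` are of nilpotent type; and for such a `σ` the products of the values of positive definite
functions along the orbits of `σ` are orthogonal to the Möbius function.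

3. If all finitely generated subgroups of `G` are virtually nilpotent, then all elements of `G` are of
nilpotent type for each quasi-unipotent endomorphism of `G`, and all inner automorphisms of `G` are
quasi-unipotent; so the same holds for the inner automorphisms `x ↦ u h * x * star (u h)`. -/
theorem result :
    (∀ (U : Type) [CStarAlgebra U] (α : U →⋆ₐ[ℂ] U),
      Generates α {x | ∃ g : unitary U, (g : U) = x ∧ NilpotentType (onUnitary α) g} →
      AllDisjoint α) ∧
    (∀ (G : Type) [Group G] (σ : G →* G), (∀ g, NilpotentType σ g) →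
      (∀ (A : Type) [CStarAlgebra A] (u : G → A) (α : A →⋆ₐ[ℂ] A), (∀ g, u g ∈ unitary A) →
        (∀ g h, ∃ c : ℂ, ‖c‖ = 1 ∧ u (g * h) = c • (u g * u h)) →
        (∀ g, ∃ c : ℂ, ‖c‖ = 1 ∧ α (u g) = c • u (σ g)) →
        Generates α (Set.range u) → AllDisjoint α) ∧
      (∀ (r : ℕ) (φ : Fin r → G → ℂ) (g : Fin r → G), (∀ i, PositiveDefinite (φ i)) →
        Tendsto (fun N : ℕ => (1 / (N : ℂ)) * ∑ n ∈ Finset.Icc 1 N,
          mu n * ∏ i, φ i ((σ^[n]) (g i))) atTop (𝓝 0))) ∧
    (∀ (G : Type) [Group G], LocallyVirtuallyNilpotent G →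
      (∀ σ : G →* G, QuasiUnipotent σ → ∀ g, NilpotentType σ g) ∧
      (∀ h : G, QuasiUnipotent (MulAut.conj h).toMonoidHom) ∧
      (∀ (A : Type) [CStarAlgebra A] (u : G → A) (h : G) (α : A →⋆ₐ[ℂ] A),
        (∀ g, u g ∈ unitary A) →
        (∀ g h, ∃ c : ℂ, ‖c‖ = 1 ∧ u (g * h) = c • (u g * u h)) →
        (∀ x, α x = u h * x * star (u h)) →
        Generates α (Set.range u) → AllDisjoint α)) := by
  refine ⟨fun U _ α h => allDisjoint_of_orb ?_ h, fun G _ σ hσ => ⟨?_, ?_⟩,
    fun G _ hG => ⟨?_, ?_, ?_⟩⟩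
  · rintro x ⟨g, rfl, m, hm, ⟨k, hk⟩, hv⟩
    exact OrbF.of_group g hm hk hv
  · intro A _ u α hu hmul hcov hgen
    have hP : Pool.Agent.P8H24.NU.Proj u σ α := ⟨hu, hmul, hcov⟩
    refine allDisjoint_of_orb ?_ hgen
    rintro _ ⟨g, rfl⟩
    exact proj_orb hP (hσ g)
  · intro r φ g hφ
    have h1 := (IsNQ.prod Finset.univ fun i _ => pd_nq (hφ i) (hσ (g i))).mob
    exact sum_eq (K := ℂ) h1
  · intro σ hσ g
    exact nt_of_qu hG hσ g
  · intro h
    exact qu_inner hG h
  · intro A _ u h α hu hmul hα hgen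
    have hP : Pool.Agent.P8H24.NU.Proj u (MulAut.conj h).toMonoidHom α :=
      ⟨hu, hmul, cov_inner hu hmul hα⟩
    refine allDisjoint_of_orb ?_ hgen
    rintro _ ⟨g, rfl⟩
    exact proj_orb hP (nt_of_qu hG (qu_inner hG h) g)

end Pool.Agent.Results.MP_7a8f48_an.NilpotentUnitaries
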