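import Pool.Agent.P8H24.PR.All
import Pool.Agent.P8H72.RH.Inner
import Pool.Agent.P8H24.PG.Ht

/-!
# Zero entropy implies Möbius disjointness for the group automorphisms of the reduced C*-algebras of
convergence groups with virtually solvable point stabilisers

Authors: helper24, helper72, helper4, helper44, helper48, helper52, helper75, helper76, helper78,
helper89, helper94.

The steps (`Pool.Agent.P8H24.PR`, statements in `Stm.lean`; parts 1 and 2 of the project are in
`Pool.Agent.P8H24.PG`; the old form of this theorem, with a dynamical hypothesis in place of the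
entropy, is `Pool.Agent.P8H72.RH`):

1. `Rel1`, `Rel2`: the normalisers of the infinite point stabilisers form a countable family with
pairwise finite intersections, invariant under all automorphisms; so the orbit of `g` under `σ` either
has a sparse part, whose averages are small in norm, or returns to a member: `g⁻¹ σᵐ(g) ∈ E`,
`σᵐ(E) = E`.
2. The members are virtually solvable, so they satisfy the Følner condition, and vector functionals of
their quasi-regular representations live on the reduced C*-algebra; if the approximation rank of the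
orbits is subexponential, `σᵐ` acts locally quasi-unipotently on the abelian sections of `E` and of
`g E g⁻¹` (`Lqr`).
3. This implies that `g` is of nilpotent type (`Pair`, RET), and the mixture of sparse and polynomial
orbits is Möbius disjoint (`Asm`).
-/

set_option autoImplicit false

open Filter Topology
open scoped ComplexOrder InnerProductSpace

namespace Pool.Agent.Results.MP_7a8f48_an.ReducedZeroEntropy

/-- the Möbius function with complex values -/
noncomputable def mu (n : ℕ) : ℂ := ((ArithmeticFunction.moebius n : ℤ) : ℂ)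

section entropy

/-- the C*-algebra `F` is isomorphic to the algebra `M_k` of the operators on `ℂ^k` -/
def IsMatrixAlgebra (F : Type) [CStarAlgebra F] (k : ℕ) : Prop :=
  Nonempty (F ≃⋆ₐ[ℂ] (EuclideanSpace ℂ (Fin k) →L[ℂ] EuclideanSpace ℂ (Fin k)))

/-- linear contractions -/
def Contractive {X Y : Type} [NormedAddCommGroup X] [NormedSpace ℂ X] [NormedAddCommGroup Y]
    [NormedSpace ℂ Y] (φ : X →ₗ[ℂ] Y) : Prop := ∀ a, ‖φ a‖ ≤ ‖a‖

section cp

variable {A B : Type} [CStarAlgebra A] [CStarAlgebra B]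

/-- Completely positive linear maps `φ : A → B`: the sums `∑ (b i)* φ ((a i)* a j) b j` are positive,
i.e. of the form `c* c`, for all finite families of elements `a i` of `A` and `b i` of `B`. -/
def CompletelyPositive (φ : A →ₗ[ℂ] B) : Prop :=
  ∀ (n : ℕ) (a : Fin n → A) (b : Fin n → B),
    ∃ c : B, ∑ i, ∑ j, star (b i) * φ (star (a i) * a j) * b j = star c * c

/-- there are contractive completely positive maps `φ : A → M_k` and `ψ : M_k → B` such that
`‖ψ (φ a) - π a‖ < δ` for all `a` in `Ω` -/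
def Approximable (π : A →⋆ₐ[ℂ] B) (Ω : Set A) (δ : ℝ) (k : ℕ) : Prop :=
  ∃ (F : Type) (_ : CStarAlgebra F) (φ : A →ₗ[ℂ] F) (ψ : F →ₗ[ℂ] B), IsMatrixAlgebra F k ∧
    CompletelyPositive φ ∧ CompletelyPositive ψ ∧ Contractive φ ∧ Contractive ψ ∧
    ∀ a ∈ Ω, ‖ψ (φ a) - π a‖ < δ

/-- the least `k` as in `Approximable` (infinite if there is none) -/
noncomputable def rcp (π : A →⋆ₐ[ℂ] B) (Ω : Set A) (δ : ℝ) : ENNReal :=
  ⨅ k : {k : ℕ // Approximable π Ω δ k}, ((k : ℕ) : ENNReal)

/-- The Voiculescu-Brown entropy, for a faithful representation `π` of `A` on a Hilbert space: the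
supremum over the finite sets `Ω` and the `δ > 0` of the upper limit of
`(1/n) log rcp(Ω ∪ α Ω ∪ … ∪ αⁿ⁻¹ Ω, δ)`. -/
noncomputable def ht (π : A →⋆ₐ[ℂ] B) (α : A → A) : EReal :=
  ⨆ (Ω : Finset A) (δ : {δ : ℝ // 0 < δ}), limsup (fun n : ℕ =>
    ENNReal.log (rcp π (⋃ j : Fin n, (α^[(j : ℕ)]) '' (Ω : Set A)) δ) / (n : EReal)) atTop

end cp

/-- `ht(α) = 0`, for a faithful representation of `A` on a Hilbert space -/
def EntropyZero {A : Type} [CStarAlgebra A] (α : A →⋆ₐ[ℂ] A) : Prop :=
  ∃ (H : Type) (_ : NormedAddCommGroup H) (_ : InnerProductSpace ℂ H) (_ : CompleteSpace H)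
    (π : A →⋆ₐ[ℂ] (H →L[ℂ] H)), Function.Injective π ∧ ht π α = 0

/-- `x, T x, …, Tⁿ⁻¹ x` are approximated within `δ` through `M_k`, by linear contractions
`φ : X → M_k` and `ψ : M_k → Y`: `‖ψ (φ a) - π a‖ ≤ δ` -/
def ContractivelyApproximable {X Y : Type} [NormedAddCommGroup X] [NormedSpace ℂ X]
    [NormedAddCommGroup Y] [NormedSpace ℂ Y] (π : X → Y) (T : X → X) (x : X) (n : ℕ) (δ : ℝ)
    (k : ℕ) : Prop :=
  ∃ (F : Type) (_ : CStarAlgebra F) (φ : X →ₗ[ℂ] F) (ψ : F →ₗ[ℂ] Y), IsMatrixAlgebra F k ∧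
    Contractive φ ∧ Contractive ψ ∧ ∀ j < n, ‖ψ (φ ((T^[j]) x)) - π ((T^[j]) x)‖ ≤ δ

/-- The orbit of `x` has subexponential contractive rank: for all `δ, ε > 0` there are arbitrarily
large `n` and `k ≤ exp (ε n)` such that `x, T x, …, Tⁿ⁻¹ x` are approximated within `δ` through
`M_k`. -/
def SubexponentialRank {X Y : Type} [NormedAddCommGroup X] [NormedSpace ℂ X]
    [NormedAddCommGroup Y] [NormedSpace ℂ Y] (π : X → Y) (T : X → X) (x : X) : Prop :=
  ∀ δ : ℝ, 0 < δ → ∀ ε : ℝ, 0 < ε → ∀ n₀ : ℕ, ∃ n ≥ n₀, ∃ k : ℕ, (k : ℝ) ≤ Real.exp (ε * n) ∧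
    ContractivelyApproximable π T x n δ k

/-- all elements of `S` have orbits of subexponential contractive rank, for some linear isometric
embedding of `A` into a normed space -/
def SubexponentialRankOn {A : Type} [CStarAlgebra A] (α : A → A) (S : Set A) : Prop :=
  ∃ (Y : Type) (_ : NormedAddCommGroup Y) (_ : NormedSpace ℂ Y) (π : A →ₗᵢ[ℂ] Y),
    ∀ x ∈ S, SubexponentialRank π α x

end entropy

section disjointness

variable {W : Type} [CStarAlgebra W]

/-- `w` is an eigenvector of `γ`, with an eigenvalue of modulus one -/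
def Eigenvector (γ : W →⋆ₐ[ℂ] W) (w : W) : Prop := ∃ l : ℂ, ‖l‖ = 1 ∧ γ w = l • w

/-- the products `v * y * w` with `y` in `S` and eigenvectors `v`, `w` of `γ` span a dense subspace -/
def Generates (γ : W →⋆ₐ[ℂ] W) (S : Set W) : Prop :=
  (Submodule.span ℂ {x : W | ∃ y ∈ S, ∃ v w, Eigenvector γ v ∧ Eigenvector γ w ∧
    x = v * y * w}).topologicalClosure = ⊤

/-- Möbius disjointness of the orbits, in the strong operator topology of all representations -/
def StronglyDisjoint (γ : W →⋆ₐ[ℂ] W) : Prop :=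
  ∀ (x : W) (K : Type) [NormedAddCommGroup K] [InnerProductSpace ℂ K] [CompleteSpace K]
    (π : W →⋆ₐ[ℂ] (K →L[ℂ] K)) (ξ : K),
    Tendsto (fun N : ℕ => (1 / (N : ℂ)) • ∑ n ∈ Finset.Icc 1 N, mu n • π ((γ^[n]) x) ξ) atTop (𝓝 0)

/-- Möbius disjointness for the products of the values of any number of bounded functionals along
any orbits; for `r = 1` this is the Möbius disjointness of the problem, for all bounded functionals -/
def FunctionalsDisjoint (γ : W →⋆ₐ[ℂ] W) : Prop :=
  ∀ (r : ℕ) (ρ : Fin r → (W →L[ℂ] ℂ)) (x : Fin r → W),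
    Tendsto (fun N : ℕ => (1 / (N : ℂ)) * ∑ n ∈ Finset.Icc 1 N,
      mu n * ∏ i, ρ i ((γ^[n]) (x i))) atTop (𝓝 0)

/-- Möbius disjointness, with all continuous functions `f` and all points, of all the compact
systems of functionals: a self-map `T` of a compact space `X` whose points are separated by the
values `ρ i x a` of bounded functionals `ρ i x` on `W`, `i ∈ I`, which are continuous in `x`, with
`ρ i (T x) = ρ i x ∘ γ`. For example `X` is the state space of `W` with the weak* topology and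
`T ρ = ρ ∘ γ`. -/
def SystemsDisjoint (γ : W →⋆ₐ[ℂ] W) : Prop :=
  ∀ (X : Type) [TopologicalSpace X] [CompactSpace X] (T : X → X) (I : Type)
    (ρ : I → X → (W →L[ℂ] ℂ)), (∀ i a, Continuous fun x => ρ i x a) →
    (∀ i x a, ρ i (T x) a = ρ i x (γ a)) → (∀ x y, x ≠ y → ∃ i a, ρ i x a ≠ ρ i y a) →
    ∀ (f : C(X, ℂ)) (x : X), Tendsto (fun N : ℕ => (1 / (N : ℂ)) *
      ∑ n ∈ Finset.Icc 1 N, mu n * f ((T^[n]) x)) atTop (𝓝 0)

/-- the three forms of Möbius disjointness -/
def Disjoint3 (γ : W →⋆ₐ[ℂ] W) : Prop :=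
  StronglyDisjoint γ ∧ FunctionalsDisjoint γ ∧ SystemsDisjoint γ

/-- `α` is Möbius disjoint in the three forms, and so is each system `(B, β)` which is generated
by an equivariant image of `(A, α)` and eigenvectors of `β`, and each system `(V, δ)` which embeds in
such a `(B, β)`. -/
def AllDisjoint {A : Type} [CStarAlgebra A] (α : A →⋆ₐ[ℂ] A) : Prop :=
  Disjoint3 α ∧
  ∀ (B : Type) [CStarAlgebra B] (β : B →⋆ₐ[ℂ] B) (ι : A →⋆ₐ[ℂ] B),
    (∀ a, β (ι a) = ι (α a)) → Generates β (Set.range ι) →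
    Disjoint3 β ∧
    ∀ (V : Type) [CStarAlgebra V] (δ : V →⋆ₐ[ℂ] V) (κ : V →⋆ₐ[ℂ] B), Function.Injective κ →
      (∀ v, κ (δ v) = β (κ v)) → Disjoint3 δ

end disjointness

section algebras

variable {A G : Type} [CStarAlgebra A] [Group G]

/-- `(A, u, τ)` is the reduced C*-algebra of the group `G`, twisted by a cocycle with values in the
circle: the `u g` are unitaries which multiply like the elements of `G` up to scalars of modulus
one, their span is dense in `A`, and the functional `τ` has value one at `1`, zero at each `u g` with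
`g ≠ 1`, and a positive value at `a* a` for each `a ≠ 0`. -/
structure RedAlg (u : G → A) (τ : A →L[ℂ] ℂ) : Prop where
  unit : ∀ g, u g ∈ unitary A
  mul : ∀ g h, ∃ c : ℂ, ‖c‖ = 1 ∧ u (g * h) = c • (u g * u h)
  dense : (Submodule.span ℂ (Set.range u)).topologicalClosure = ⊤
  one : τ 1 = 1
  zero : ∀ g, g ≠ 1 → τ (u g) = 0
  pos : ∀ a : A, a ≠ 0 → ∃ r : ℝ, 0 < r ∧ τ (star a * a) = r

/-- `α` covers the automorphism `σ` of `G`: it maps each `u g` to a multiple, by a scalar of modulus
one, of `u (σ g)` -/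
def Covers (u : G → A) (σ : MulAut G) (α : A →⋆ₐ[ℂ] A) : Prop :=
  ∀ g : G, ∃ c : ℂ, ‖c‖ = 1 ∧ α (u g) = c • u (σ g)

end algebras

section groups

variable {G : Type} [Group G]

/-- `G` acts on `X` by homeomorphisms, as a convergence group: each sequence of distinct elements
has a subsequence which converges to a point `a`, uniformly off each neighbourhood of a point
`b`. -/
def ConvergenceAction (G X : Type) [Group G] [TopologicalSpace X] [MulAction G X] : Prop :=
  (∀ g : G, Continuous fun p : X => g • p) ∧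
  ∀ x : ℕ → G, Function.Injective x → ∃ φ : ℕ → ℕ, StrictMono φ ∧ ∃ a b : X,
    ∀ U ∈ 𝓝 a, ∀ V ∈ 𝓝 b, ∀ᶠ n in atTop, ∀ p : X, p ∉ V → x (φ n) • p ∈ U

/-- the subgroup `H` contains a torsion-free solvable subgroup of finite index. For example all
virtually polycyclic groups have this property. -/
def VirtTorsionFreeSolvable (H : Subgroup G) : Prop :=
  ∃ N : Subgroup G, N ≤ H ∧ N.relIndex H ≠ 0 ∧ Group.IsSolvable N ∧ ∀ x ∈ N, IsOfFinOrder x → x = 1

/-- the subgroup `H` contains a torsion-free nilpotent subgroup of finite index -/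
def VirtTorsionFreeNilpotent (H : Subgroup G) : Prop :=
  ∃ N : Subgroup G, N ≤ H ∧ N.relIndex H ≠ 0 ∧ Group.IsNilpotent N ∧
    ∀ x ∈ N, IsOfFinOrder x → x = 1

/-- the difference map `h ↦ h⁻¹ σᵐ(h)` -/
def diff (σ : MulAut G) (m : ℕ) (h : G) : G := h⁻¹ * (σ ^ m) h

/-- For some `q > 0` some iterate of the difference map `D : h ↦ h⁻¹ σ^q(h)` maps `g` to `1`, and
`D g`, `D² g`, `D³ g`, ... generate a virtually nilpotent group. -/
def NilpotentType (σ : MulAut G) (g : G) : Prop :=
  ∃ q : ℕ, 0 < q ∧ (∃ k : ℕ, ((diff σ q)^[k]) g = 1) ∧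
    Group.IsVirtuallyNilpotent (Subgroup.closure {x : G | ∃ i : ℕ, x = ((diff σ q)^[i + 1]) g})

/-- the subgroup `E` is mapped onto itself by `σᵐ` -/
def MapsOnto (σ : MulAut G) (m : ℕ) (E : Subgroup G) : Prop := ∀ x, (σ ^ m) x ∈ E ↔ x ∈ E

/-- the normaliser of the stabiliser of the point `p` -/
def maxSubgroup (G : Type) [Group G] {X : Type} [MulAction G X] (p : X) : Subgroup G :=
  Subgroup.normalizer (MulAction.stabilizer G p : Set G)

/-- All elements which return to the normaliser `E` of an infinite point stabiliser are of nilpotent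
type: if `σᵐ(E) = E` and `g⁻¹ σᵐ(g) ∈ E` for some `m > 0` then `g` is of nilpotent type. -/
def NilpotentReturns (X : Type) [MulAction G X] (σ : MulAut G) : Prop :=
  ∀ p : X, (MulAction.stabilizer G p : Set G).Infinite → ∀ m : ℕ, 0 < m →
    MapsOnto σ m (maxSubgroup G p) → ∀ g : G, diff σ m g ∈ maxSubgroup G p → NilpotentType σ g

/-- the semidirect product `G ⋊ ℤ`, in which `ℤ` acts on `G` by the powers of `σ` -/
abbrev SemiProd (σ : MulAut G) : Type :=
  SemidirectProduct G (Multiplicative ℤ) (zpowersHom (MulAut G) σ)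

/-- the generator `t` of `ℤ`, which acts on `G` by `σ` -/
def t (σ : MulAut G) : SemiProd σ := SemidirectProduct.inr (Multiplicative.ofAdd 1)

/-- the subgroup `⟨E, tᵐ⟩` of `G ⋊ ℤ`; if `σᵐ` maps `E` onto `E` this is the semidirect product of
`E` and the infinite cyclic group generated by `tᵐ`, which acts on `E` by `σᵐ` -/
def torus (σ : MulAut G) (E : Subgroup G) (m : ℕ) : Subgroup (SemiProd σ) :=
  Subgroup.closure ({x | ∃ e ∈ E, x = SemidirectProduct.inl e} ∪ {t σ ^ m})

/-- Whenever a power `σᵐ`, `m > 0`, maps the normaliser `E` of an infinite point stabiliser onto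
itself, the group `E ⋊ ℤ` defined by `σᵐ` is virtually nilpotent. -/
def QuasiUnipotentReturns (X : Type) [MulAction G X] (σ : MulAut G) : Prop :=
  ∀ p : X, (MulAction.stabilizer G p : Set G).Infinite → ∀ m : ℕ, 0 < m →
    MapsOnto σ m (maxSubgroup G p) → Group.IsVirtuallyNilpotent (torus σ (maxSubgroup G p) m)

/-- some positive power of `σ` is an inner automorphism -/
def HasInnerPower (σ : MulAut G) : Prop := ∃ d : ℕ, 0 < d ∧ ∃ g : G, σ ^ d = MulAut.conj g

end groups

open Pool.Agent.Helper188.NCM (mob)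
open Pool.Agent.TH261.AB (vav vav_Icc Good)
open Pool.Agent.TH261.NP (top_of_multi)
open Pool.Agent.P8H72.RH

section proofs

variable {U : Type} [CStarAlgebra U]

theorem sum_eq {K : Type*} [NormedAddCommGroup K] [NormedSpace ℂ K] {a : ℕ → K}
    (h : Tendsto (vav fun n => mob n • a n) atTop (𝓝 0)) :
    Tendsto (fun N : ℕ => (1 / (N : ℂ)) • ∑ n ∈ Finset.Icc 1 N, mu n • a n) atTop (𝓝 0) :=
  vav_Icc (a := fun n => mob n • a n) (by simp [mob]) h

theorem ext_functional {V : Type} [CStarAlgebra V] (κ : V →⋆ₐ[ℂ] U) (hκ : Function.Injective κ)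
    (φ : V →L[ℂ] ℂ) : ∃ ψ : U →L[ℂ] ℂ, ∀ x, ψ (κ x) = φ x := by
  have hiso : ∀ x : V, ‖κ x‖ = ‖x‖ := fun x => NonUnitalStarAlgHom.norm_map κ hκ x
  let κl : V →ₗᵢ[ℂ] U := ⟨κ.toAlgHom.toLinearMap, hiso⟩
  let e := κl.equivRange
  let p : Submodule ℂ U := LinearMap.range κl.toLinearMap
  obtain ⟨ψ, hψ, -⟩ := exists_extension_norm_eq p (φ.comp
    (e.symm.toContinuousLinearEquiv : p →L[ℂ] V))
  refine ⟨ψ, fun x => ?_⟩
  have := hψ (e x)
  have h2 : ((e x : p) : U) = κ x := rfl
  rw [h2] at this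
  rw [this]
  simp

theorem multi_embed {V : Type} [CStarAlgebra V] {β : U →⋆ₐ[ℂ] U}
    (h : Pool.Agent.P8H24.NU.Multi β) (δ : V →⋆ₐ[ℂ] V)
    (κ : V →⋆ₐ[ℂ] U) (hκ : Function.Injective κ) (hδ : ∀ v, κ (δ v) = β (κ v)) :
    Pool.Agent.P8H24.NU.Multi δ := by
  have hn : ∀ (n : ℕ) v, κ ((δ^[n]) v) = (β^[n]) (κ v) := by
    intro n
    induction n with
    | zero => intro v; rfl
    | succ n ih =>
      intro v
      rw [Function.iterate_succ_apply', Function.iterate_succ_apply', hδ, ih]
  choose ψ hψ using ext_functional κ hκ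
  intro L
  refine (h (L.map fun p => (ψ p.1, κ p.2))).congr fun N => ?_
  rw [vav, vav]
  congr 1
  refine Finset.sum_congr rfl fun n _ => ?_
  rw [List.map_map]
  congr 2
  refine List.map_congr_left fun p _ => ?_
  simp only [Function.comp_apply]
  rw [← hn, hψ]

theorem disjoint3_of {γ : U →⋆ₐ[ℂ] U} (h1 : ∀ x, Good γ x)
    (h2 : Pool.Agent.P8H24.NU.Multi γ) : Disjoint3 γ := by
  refine ⟨fun x K _ _ _ π ξ => sum_eq (h1 x K π ξ), fun r ρ x => ?_,
    fun X _ _ T I ρ hc hρ hs f x => ?_⟩
  · have h3 := sum_eq (K := ℂ) (h2 (List.ofFn fun i => (ρ i, x i)))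
    refine h3.congr fun N => ?_
    rw [smul_eq_mul]
    congr 1
    refine Finset.sum_congr rfl fun n _ => ?_
    rw [smul_eq_mul, List.map_ofFn, List.prod_ofFn]
    rfl
  · exact sum_eq (K := ℂ) (top_of_multi γ h2 T ρ hc hρ hs f x)

theorem allDisjoint_of_mx {α : U →⋆ₐ[ℂ] U} {S : Set U} (hS : ∀ x ∈ S, Mx α x)
    (hd : (Submodule.span ℂ S).topologicalClosure = ⊤) : AllDisjoint α := by
  refine ⟨?_, fun B _ β ι hι hgen => ?_⟩
  · obtain ⟨h2, h3⟩ := both_mx hS hd
    exact disjoint3_of h2 h3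
  · obtain ⟨h2, h3⟩ := both_ext_mx hS hd hι hgen
    exact ⟨disjoint3_of h2 h3, fun V _ δ κ hκ hδ =>
      disjoint3_of (Good.embed h2 δ κ hκ hδ) (multi_embed h3 δ κ hκ hδ)⟩

end proofs

section lowrank

open Pool.Agent.P8H24.PG (LowRank Mk lowRank_of)

variable {A : Type} [CStarAlgebra A]

theorem lowRank_of_subexp {X Y : Type} [NormedAddCommGroup X] [NormedSpace ℂ X]
    [NormedAddCommGroup Y] [NormedSpace ℂ Y] (π : X → Y) (πc : X →L[ℂ] Y) (hπ : ∀ a, πc a = π a)
    (T : X → X) (x : X) (h : SubexponentialRank π T x) : LowRank πc T x := by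
  intro δ hδ ε hε n₀
  obtain ⟨n, hn, k, hk, F, i1, φ, ψ, ⟨e⟩, hφ, hψ, h4⟩ := h δ hδ ε hε n₀
  have he : ∀ b, ‖e b‖ = ‖b‖ := fun b =>
    NonUnitalStarAlgHom.norm_map e e.injective b
  have he' : ∀ b, ‖e.symm b‖ = ‖b‖ := fun b => by
    rw [← he (e.symm b), StarAlgEquiv.apply_symm_apply]
  refine ⟨n, hn, k, hk, (e : F →⋆ₐ[ℂ] Mk k).toAlgHom.toLinearMap.comp φ,
    ψ.comp (e.symm : Mk k →⋆ₐ[ℂ] F).toAlgHom.toLinearMap, fun a => ?_, fun b => ?_, fun j hj => ?_⟩
  · show ‖e (φ a)‖ ≤ ‖a‖
    rw [he]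
    exact hφ a
  · show ‖ψ (e.symm b)‖ ≤ ‖b‖
    rw [← he' b]
    exact hψ _
  · show ‖ψ (e.symm (e (φ ((T^[j]) x)))) - πc ((T^[j]) x)‖ ≤ δ
    rw [StarAlgEquiv.symm_apply_apply, hπ]
    exact h4 j hj

theorem subexp_of_ht {B : Type} [CStarAlgebra B]
    (π : A →⋆ₐ[ℂ] B) (πc : A →L[ℂ] B) (hπ : ∀ a, πc a = π a) (α : A → A)
    (h : ht π α = 0) (x : A) : LowRank πc α x := by
  refine lowRank_of πc α x (fun Ω δ k => Approximable π Ω δ k) ?_ ?_
  · rintro n δ k ⟨F, i1, φ, ψ, ⟨e⟩, -, -, hφ, hψ, h5⟩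
    have he : ∀ b, ‖e b‖ = ‖b‖ := fun b =>
      NonUnitalStarAlgHom.norm_map e e.injective b
    have he' : ∀ b, ‖e.symm b‖ = ‖b‖ := fun b => by
      rw [← he (e.symm b), StarAlgEquiv.apply_symm_apply]
    refine ⟨(e : F →⋆ₐ[ℂ] Mk k).toAlgHom.toLinearMap.comp φ,
      ψ.comp (e.symm : Mk k →⋆ₐ[ℂ] F).toAlgHom.toLinearMap, fun a => ?_, fun b => ?_,
      fun j hj => ?_⟩
    · show ‖e (φ a)‖ ≤ ‖a‖
      rw [he]
      exact hφ a
    · show ‖ψ (e.symm b)‖ ≤ ‖b‖
      rw [← he' b]
      exact hψ _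
    · show ‖ψ (e.symm (e (φ ((α^[j]) x)))) - πc ((α^[j]) x)‖ ≤ δ
      rw [StarAlgEquiv.symm_apply_apply, hπ]
      exact (h5 _ (Set.mem_iUnion.2 ⟨⟨j, hj⟩, x, rfl, rfl⟩)).le
  · intro δ hδ
    have h1 := le_iSup₂ (f := fun (Ω : Finset A) (δ : {δ : ℝ // 0 < δ}) =>
      limsup (fun n : ℕ => ENNReal.log (rcp π (⋃ j : Fin n, (α^[(j : ℕ)]) '' (Ω : Set A)) δ) /
        (n : EReal)) atTop) ({x} : Finset A) ⟨δ, hδ⟩
    rw [Finset.coe_singleton] at h1
    exact h1.trans h.le

end lowrank

open Pool.Agent.P8H24.PR (Ret Fam NTf df S_NFR S_NFR2 S_RET)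

theorem ret_iff {G : Type} [Group G] {X : Type} [MulAction G X] {σ : MulAut G} :
    NilpotentReturns X σ ↔ Ret X σ := by
  constructor
  · rintro h E ⟨p, hp, rfl⟩ m hm hE g hg
    exact h p hp m hm hE g hg
  · intro h p hp m hm hE g hg
    exact h _ ⟨p, hp, rfl⟩ m hm hE g hg

/-- **Q1 for the group automorphisms of the reduced C*-algebras of convergence groups with virtually
solvable point stabilisers.**

Let the countable group `G` act on an infinite compact Hausdorff space as a convergence group, such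
that each point stabiliser contains a torsion-free solvable subgroup of finite index (for example `G`
is a non-elementary relatively hyperbolic group, or a subgroup of one, whose peripheral subgroups
are virtually polycyclic), let `A` be the reduced C*-algebra of `G`, with the canonical unitaries
`u g`, and let the endomorphism `α` of `A` map each `u g` to a scalar multiple of `u (σ g)`, for an
automorphism `σ` of `G`.

1. If the Voiculescu-Brown entropy `ht(α)` is zero, or if only the orbits of the `u g` have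
subexponential rank for approximations through `M_k` by linear contractions, then `α` is Möbius
disjoint: for all states, in the strong operator topology of every representation, for the products
of the values of any number of bounded functionals, and for all continuous functions on all compact
systems of functionals (such as the state space); and so is each system generated by an equivariant
image of `(A, α)` and eigenvectors, and each subsystem of such a system. Moreover all elements of `G`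
which return to the normaliser of an infinite point stabiliser are of nilpotent type for `σ`.

2. Conversely, if all these elements are of nilpotent type (a condition on the group automorphism
`σ` only) then each `α` which covers `σ` is Möbius disjoint, also on twisted reduced C*-algebras.

3. The condition of 2. is satisfied if the mapping tori of the returns of `σ` are virtually nilpotent,
in particular if some positive power of `σ` is inner and the point stabilisers contain torsion-free
nilpotent subgroups of finite index. -/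
theorem result (G : Type) [Group G] [Countable G] (X : Type) [TopologicalSpace X] [CompactSpace X]
    [T2Space X] [Infinite X] [MulAction G X] (hG : ConvergenceAction G X)
    (hst : ∀ p : X, VirtTorsionFreeSolvable (MulAction.stabilizer G p)) (σ : MulAut G) :
    (∀ (A : Type) [CStarAlgebra A] (u : G → A) (τ : A →L[ℂ] ℂ) (α : A →⋆ₐ[ℂ] A), RedAlg u τ →
      (∀ g h, u (g * h) = u g * u h) → Covers u σ α →
      (EntropyZero α ∨ SubexponentialRankOn α (Set.range u)) →
        AllDisjoint α ∧ NilpotentReturns X σ) ∧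
    (NilpotentReturns X σ → ∀ (A : Type) [CStarAlgebra A] (u : G → A) (τ : A →L[ℂ] ℂ)
      (α : A →⋆ₐ[ℂ] A), RedAlg u τ → Covers u σ α → AllDisjoint α) ∧
    (QuasiUnipotentReturns X σ → NilpotentReturns X σ) ∧
    ((∀ p : X, VirtTorsionFreeNilpotent (MulAction.stabilizer G p)) → HasInnerPower σ →
      NilpotentReturns X σ) := by
  obtain ⟨hdisj, hcount, hinv, hsol⟩ := Pool.Agent.P8H24.PR.rel G X hG hst
  have part2 : NilpotentReturns X σ → ∀ (A : Type) [CStarAlgebra A] (u : G → A) (τ : A →L[ℂ] ℂ)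
      (α : A →⋆ₐ[ℂ] A), RedAlg u τ → Covers u σ α → AllDisjoint α := by
    intro hret A _ u τ α hu hα
    have hu' : Pool.Agent.W726.NS.RedAlg u τ := ⟨hu.unit, hu.mul, hu.dense, hu.one, hu.zero, hu.pos⟩
    refine allDisjoint_of_mx (S := Set.range u) ?_ hu.dense
    rintro _ ⟨g, rfl⟩
    exact Pool.Agent.P8H24.PR.mx_ret (X := X) hu' hG hdisj hcount hinv σ (ret_iff.1 hret) α hα g
  have part1 : ∀ (A : Type) [CStarAlgebra A] (u : G → A) (τ : A →L[ℂ] ℂ) (α : A →⋆ₐ[ℂ] A),
      RedAlg u τ → (∀ g h, u (g * h) = u g * u h) → Covers u σ α → ∀ (Y : Type)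
      [NormedAddCommGroup Y] [NormedSpace ℂ Y] (π : A →L[ℂ] Y), (∀ a, ‖π a‖ = ‖a‖) →
      (∀ g, Pool.Agent.P8H24.PG.LowRank π α (u g)) → AllDisjoint α ∧ NilpotentReturns X σ := by
    intro A _ u τ α hu hmul hα Y _ _ π hπ h
    have hu' : Pool.Agent.W726.NS.RedAlg u τ := ⟨hu.unit, hu.mul, hu.dense, hu.one, hu.zero, hu.pos⟩
    have hret : NilpotentReturns X σ := ret_iff.2
      (Pool.Agent.P8H24.PR.all_ret hu' hmul π hπ σ α hα h hsol)
    exact ⟨part2 hret A u τ α hu hα, hret⟩
  have part3 : QuasiUnipotentReturns X σ → NilpotentReturns X σ := by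
    intro h p hp m hm hE g hg
    obtain ⟨q, V, hq, hVn, hV, hgV, hk⟩ := Pool.Agent.P8H72.RH.nilp_data σ (maxSubgroup G p) m hm
      (h p hp m hm hE) g hg
    exact Pool.Agent.P8H24.PR.NTf.of_nt (Pool.Agent.P8H72.RH.nt_of σ g V hVn q hq hV hgV hk)
  refine ⟨?_, part2, part3, ?_⟩
  · intro A _ u τ α hu hmul hα h
    rcases h with ⟨H, _, _, _, π, hπ, h⟩ | ⟨Y, _, _, π, h⟩
    · have hiso : ∀ x : A, ‖π x‖ = ‖x‖ := fun x => NonUnitalStarAlgHom.norm_map π hπ x
      let πc : A →L[ℂ] (H →L[ℂ] H) := LinearMap.mkContinuous π.toAlgHom.toLinearMap 1 fun x => by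
        rw [one_mul]
        exact (hiso x).le
      exact part1 A u τ α hu hmul hα _ πc hiso fun g => subexp_of_ht π πc (fun _ => rfl) α h _
    · exact part1 A u τ α hu hmul hα _ π.toContinuousLinearMap π.norm_map fun g =>
        lowRank_of_subexp π _ (fun _ => rfl) α _ (h _ ⟨g, rfl⟩)
  · intro hn ⟨d, hd, g, hg⟩
    refine part3 fun p hp m _ hE => ?_
    exact Pool.Agent.P8H72.RH.inner_torus hG (fun p => by
      obtain ⟨N, h1, h2, h3, h4⟩ := hn p
      exact ⟨N, h1, h2, h3, h4⟩) σ hd (g := g) (fun x => by rw [hg, MulAut.conj_apply]) p hp m hE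

end Pool.Agent.Results.MP_7a8f48_an.ReducedZeroEntropy
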