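import Pool.Agent.P8H24.PG.All
/-!
# Zero entropy implies Möbius disjointness for the group automorphisms of the C*-algebras of
virtually solvable groups

The steps (`Pool.Agent.P8H24.PG`, statements in `Stm.lean`, `Stm2.lean`; authors: helper24, helper4,
helper44, helper52, helper75, helper76, helper78, helper89, helper94):

1. `Core`, `Ent2`: if the approximation rank of the orbits is subexponential, no orbit contains a
progression on which all sign patterns are realised by contractive functionals (trace method in `M_k`);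
vector states show that `σ` then acts locally quasi-unipotently on `K / [K, K]` for each invariant
subgroup `K` (Kronecker's theorem for roots of unity).
2. For virtually solvable groups this implies that all elements are of nilpotent type.
3. The orbits of such elements are polynomial sequences in nilpotent groups of unitaries, and the
theorem of the hand-in NilpotentUnitaries applies (`Pool.Agent.P8H24.NU`).
-/

set_option autoImplicit false

open Filter Topology
open scoped ComplexOrder InnerProductSpace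

namespace Pool.Agent.Results.MP_7a8f48_an.VirtuallySolvableGroups

/-- the Möbius function with complex values -/
noncomputable def mu (n : ℕ) : ℂ := ((ArithmeticFunction.moebius n : ℤ) : ℂ)

section entropy

/-- the C*-algebra `F` is isomorphic to the algebra `M_k` of the operators on `ℂ^k` -/
def IsMatrixAlgebra (F : Type) [CStarAlgebra F] (k : ℕ) : Prop :=
  Nonempty (F ≃⋆ₐ[ℂ] (EuclideanSpace ℂ (Fin k) →L[ℂ] EuclideanSpace ℂ (Fin k)))

/-- linear contractions -/
def Contractive {X Y : Type} [NormedAddCommGroup X] [NormedSpace ℂ X] [NormedAddCommGroup Y]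
    [NormedSpace ℂ Y] (φ : X →ₗ[ℂ] Y) : Prop := ∀ a, ‖φ a‖ ≤ ‖a‖

section cp

variable {A B : Type} [CStarAlgebra A] [CStarAlgebra B]

/-- Completely positive linear maps `φ : A → B`: the sums `∑ (b i)* φ ((a i)* a j) b j` are positive,
i.e. of the form `c* c`, for all finite families of elements `a i` of `A` and `b i` of `B`. -/
def CompletelyPositive (φ : A →ₗ[ℂ] B) : Prop :=
  ∀ (n : ℕ) (a : Fin n → A) (b : Fin n → B),
    ∃ c : B, ∑ i, ∑ j, star (b i) * φ (star (a i) * a j) * b j = star c * c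

/-- there are contractive completely positive maps `φ : A → M_k` and `ψ : M_k → B` such that
`‖ψ (φ a) - π a‖ < δ` for all `a` in `Ω` -/
def Approximable (π : A →⋆ₐ[ℂ] B) (Ω : Set A) (δ : ℝ) (k : ℕ) : Prop :=
  ∃ (F : Type) (_ : CStarAlgebra F) (φ : A →ₗ[ℂ] F) (ψ : F →ₗ[ℂ] B), IsMatrixAlgebra F k ∧
    CompletelyPositive φ ∧ CompletelyPositive ψ ∧ Contractive φ ∧ Contractive ψ ∧
    ∀ a ∈ Ω, ‖ψ (φ a) - π a‖ < δ

/-- the least `k` as in `Approximable` (infinite if there is none) -/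
noncomputable def rcp (π : A →⋆ₐ[ℂ] B) (Ω : Set A) (δ : ℝ) : ENNReal :=
  ⨅ k : {k : ℕ // Approximable π Ω δ k}, ((k : ℕ) : ENNReal)

/-- The Voiculescu-Brown entropy, for a faithful representation `π` of `A` on a Hilbert space: the
supremum over the finite sets `Ω` and the `δ > 0` of the upper limit of
`(1/n) log rcp(Ω ∪ α Ω ∪ … ∪ αⁿ⁻¹ Ω, δ)`. -/
noncomputable def ht (π : A →⋆ₐ[ℂ] B) (α : A → A) : EReal :=
  ⨆ (Ω : Finset A) (δ : {δ : ℝ // 0 < δ}), limsup (fun n : ℕ =>
    ENNReal.log (rcp π (⋃ j : Fin n, (α^[(j : ℕ)]) '' (Ω : Set A)) δ) / (n : EReal)) atTop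

end cp

/-- `ht(α) = 0`, for a faithful representation of `A` on a Hilbert space -/
def EntropyZero {A : Type} [CStarAlgebra A] (α : A →⋆ₐ[ℂ] A) : Prop :=
  ∃ (H : Type) (_ : NormedAddCommGroup H) (_ : InnerProductSpace ℂ H) (_ : CompleteSpace H)
    (π : A →⋆ₐ[ℂ] (H →L[ℂ] H)), Function.Injective π ∧ ht π α = 0

/-- `x, T x, …, Tⁿ⁻¹ x` are approximated within `δ` through `M_k`, by linear contractions
`φ : X → M_k` and `ψ : M_k → Y`: `‖ψ (φ a) - π a‖ ≤ δ` -/
def ContractivelyApproximable {X Y : Type} [NormedAddCommGroup X] [NormedSpace ℂ X]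
    [NormedAddCommGroup Y] [NormedSpace ℂ Y] (π : X → Y) (T : X → X) (x : X) (n : ℕ) (δ : ℝ)
    (k : ℕ) : Prop :=
  ∃ (F : Type) (_ : CStarAlgebra F) (φ : X →ₗ[ℂ] F) (ψ : F →ₗ[ℂ] Y), IsMatrixAlgebra F k ∧
    Contractive φ ∧ Contractive ψ ∧ ∀ j < n, ‖ψ (φ ((T^[j]) x)) - π ((T^[j]) x)‖ ≤ δ

/-- The orbit of `x` has subexponential contractive rank: for all `δ, ε > 0` there are arbitrarily
large `n` and `k ≤ exp (ε n)` such that `x, T x, …, Tⁿ⁻¹ x` are approximated within `δ` through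
`M_k`. -/
def SubexponentialRank {X Y : Type} [NormedAddCommGroup X] [NormedSpace ℂ X]
    [NormedAddCommGroup Y] [NormedSpace ℂ Y] (π : X → Y) (T : X → X) (x : X) : Prop :=
  ∀ δ : ℝ, 0 < δ → ∀ ε : ℝ, 0 < ε → ∀ n₀ : ℕ, ∃ n ≥ n₀, ∃ k : ℕ, (k : ℝ) ≤ Real.exp (ε * n) ∧
    ContractivelyApproximable π T x n δ k

/-- all elements of `S` have orbits of subexponential contractive rank, for some linear isometric
embedding of `A` into a normed space -/
def SubexponentialRankOn {A : Type} [CStarAlgebra A] (α : A → A) (S : Set A) : Prop :=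
  ∃ (Y : Type) (_ : NormedAddCommGroup Y) (_ : NormedSpace ℂ Y) (π : A →ₗᵢ[ℂ] Y),
    ∀ x ∈ S, SubexponentialRank π α x

end entropy

section groups

section algebras

variable {Γ A : Type} [Group Γ] [CStarAlgebra A]

/-- `u` makes `A` the full group C*-algebra of `Γ`: the `u g` are unitaries which multiply like the
elements of `Γ`, their linear combinations are dense, and each homomorphism from `Γ` to the unitary
group of a C*-algebra `B` extends to a homomorphism `A → B`. -/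
structure IsGroupAlgebra (u : Γ → A) : Prop where
  unit : ∀ g, u g ∈ unitary A
  mul : ∀ g h, u (g * h) = u g * u h
  dense : (Submodule.span ℂ (Set.range u)).topologicalClosure = ⊤
  lift : ∀ (B : Type) [CStarAlgebra B] (v : Γ → B), (∀ g, v g ∈ unitary B) →
    (∀ g h, v (g * h) = v g * v h) → ∃ π : A →⋆ₐ[ℂ] B, ∀ g, π (u g) = v g

/-- `α` covers the automorphism `σ`: it maps each `u g` to a multiple, by a scalar of modulus one, of
`u (σ g)` -/
def Covers (u : Γ → A) (σ : Γ ≃* Γ) (α : A →⋆ₐ[ℂ] A) : Prop :=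
  ∀ g, ∃ c : ℂ, ‖c‖ = 1 ∧ α (u g) = c • u (σ g)

end algebras

variable {Γ : Type} [Group Γ]

/-- a solvable subgroup has finite index -/
def VirtuallySolvable (K : Subgroup Γ) : Prop :=
  ∃ S : Subgroup K, S.FiniteIndex ∧ Group.IsSolvable S

/-- Each element lies in a virtually solvable subgroup which is invariant under some `σᵐ`, `m > 0`.
For example `Γ` is virtually solvable; or all finitely generated subgroups of `Γ` are virtually
solvable and `σ` is an inner automorphism. -/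
def CoveredBySolvable (σ : Γ ≃* Γ) : Prop :=
  ∀ g : Γ, ∃ m : ℕ, 0 < m ∧ ∃ K : Subgroup Γ, g ∈ K ∧ (∀ x, (σ^[m]) x ∈ K ↔ x ∈ K) ∧
    VirtuallySolvable K

/-- the difference map `h ↦ h⁻¹ σᵐ(h)` -/
def diff (σ : Γ ≃* Γ) (m : ℕ) (h : Γ) : Γ := h⁻¹ * (σ^[m]) h

/-- For some `m > 0` some iterate of the difference map `D : h ↦ h⁻¹ σᵐ(h)` maps `g` to `1`, and
`D g`, `D² g`, `D³ g`, ... generate a nilpotent group. -/
def NilpotentType (σ : Γ ≃* Γ) (g : Γ) : Prop :=
  ∃ m : ℕ, 0 < m ∧ (∃ k : ℕ, ((diff σ m)^[k]) g = 1) ∧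
    Group.IsNilpotent (Subgroup.closure {x : Γ | ∃ i : ℕ, x = ((diff σ m)^[i + 1]) g})

end groups

section defs

variable {W : Type} [CStarAlgebra W]

/-- `w` is an eigenvector of `γ`, with an eigenvalue of modulus one -/
def Eigenvector (γ : W →⋆ₐ[ℂ] W) (w : W) : Prop := ∃ l : ℂ, ‖l‖ = 1 ∧ γ w = l • w

/-- the products `v * y * w` with `y` in `S` and eigenvectors `v`, `w` of `γ` span a dense subspace -/
def Generates (γ : W →⋆ₐ[ℂ] W) (S : Set W) : Prop :=
  (Submodule.span ℂ {x : W | ∃ y ∈ S, ∃ v w, Eigenvector γ v ∧ Eigenvector γ w ∧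
    x = v * y * w}).topologicalClosure = ⊤

/-- Möbius disjointness of the orbits, in the strong operator topology of all representations -/
def StronglyDisjoint (γ : W →⋆ₐ[ℂ] W) : Prop :=
  ∀ (x : W) (K : Type) [NormedAddCommGroup K] [InnerProductSpace ℂ K] [CompleteSpace K]
    (π : W →⋆ₐ[ℂ] (K →L[ℂ] K)) (ξ : K),
    Tendsto (fun N : ℕ => (1 / (N : ℂ)) • ∑ n ∈ Finset.Icc 1 N, mu n • π ((γ^[n]) x) ξ) atTop (𝓝 0)

/-- Möbius disjointness for the products of the values of any number of bounded functionals along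
any orbits; for `r = 1` this is the Möbius disjointness of the problem, for all bounded functionals -/
def FunctionalsDisjoint (γ : W →⋆ₐ[ℂ] W) : Prop :=
  ∀ (r : ℕ) (ρ : Fin r → (W →L[ℂ] ℂ)) (x : Fin r → W),
    Tendsto (fun N : ℕ => (1 / (N : ℂ)) * ∑ n ∈ Finset.Icc 1 N,
      mu n * ∏ i, ρ i ((γ^[n]) (x i))) atTop (𝓝 0)

/-- Möbius disjointness, with all continuous functions `f` and all points, of all the compact
systems of functionals: a self-map `T` of a compact space `X` whose points are separated by the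
values `ρ i x a` of bounded functionals `ρ i x` on `W`, `i ∈ I`, which are continuous in `x`, with
`ρ i (T x) = ρ i x ∘ γ`. For example `X` is the state space of `W` with the weak* topology and
`T ρ = ρ ∘ γ`. -/
def SystemsDisjoint (γ : W →⋆ₐ[ℂ] W) : Prop :=
  ∀ (X : Type) [TopologicalSpace X] [CompactSpace X] (T : X → X) (I : Type)
    (ρ : I → X → (W →L[ℂ] ℂ)), (∀ i a, Continuous fun x => ρ i x a) →
    (∀ i x a, ρ i (T x) a = ρ i x (γ a)) → (∀ x y, x ≠ y → ∃ i a, ρ i x a ≠ ρ i y a) →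
    ∀ (f : C(X, ℂ)) (x : X), Tendsto (fun N : ℕ => (1 / (N : ℂ)) *
      ∑ n ∈ Finset.Icc 1 N, mu n * f ((T^[n]) x)) atTop (𝓝 0)

/-- the three forms of Möbius disjointness -/
def Disjoint3 (γ : W →⋆ₐ[ℂ] W) : Prop :=
  StronglyDisjoint γ ∧ FunctionalsDisjoint γ ∧ SystemsDisjoint γ

/-- `α` is Möbius disjoint in the three forms, and so is each system `(B, β)` in which the products
`v * ι a * w` span a dense subspace, for an equivariant `ι : A → B`, `a` in `A` and eigenvectors `v`,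
`w` of `β`, and each system `(V, δ)` which embeds in such a `(B, β)`. -/
def AllDisjoint {A : Type} [CStarAlgebra A] (α : A →⋆ₐ[ℂ] A) : Prop :=
  Disjoint3 α ∧
  ∀ (B : Type) [CStarAlgebra B] (β : B →⋆ₐ[ℂ] B) (ι : A →⋆ₐ[ℂ] B),
    (∀ a, β (ι a) = ι (α a)) → Generates β (Set.range ι) →
    Disjoint3 β ∧
    ∀ (V : Type) [CStarAlgebra V] (δ : V →⋆ₐ[ℂ] V) (κ : V →⋆ₐ[ℂ] B), Function.Injective κ →
      (∀ v, κ (δ v) = β (κ v)) → Disjoint3 δ

end defs

open Pool.Agent.Helper188.NCM Pool.Agent.TH261.AB Pool.Agent.TH261.NP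
open Pool.Agent.P8H24.NU hiding Sc Proj QU Multi

section proofs

variable {U : Type} [CStarAlgebra U]

theorem sum_eq {K : Type*} [NormedAddCommGroup K] [NormedSpace ℂ K] {a : ℕ → K}
    (h : Tendsto (vav fun n => mob n • a n) atTop (𝓝 0)) :
    Tendsto (fun N : ℕ => (1 / (N : ℂ)) • ∑ n ∈ Finset.Icc 1 N, mu n • a n) atTop (𝓝 0) :=
  vav_Icc (a := fun n => mob n • a n) (by simp [mob]) h

theorem ext_functional {V : Type} [CStarAlgebra V] (κ : V →⋆ₐ[ℂ] U) (hκ : Function.Injective κ)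
    (φ : V →L[ℂ] ℂ) : ∃ ψ : U →L[ℂ] ℂ, ∀ x, ψ (κ x) = φ x := by
  have hiso : ∀ x : V, ‖κ x‖ = ‖x‖ := fun x => NonUnitalStarAlgHom.norm_map κ hκ x
  let κl : V →ₗᵢ[ℂ] U := ⟨κ.toAlgHom.toLinearMap, hiso⟩
  let e := κl.equivRange
  let p : Submodule ℂ U := LinearMap.range κl.toLinearMap
  obtain ⟨ψ, hψ, -⟩ := exists_extension_norm_eq p (φ.comp
    (e.symm.toContinuousLinearEquiv : p →L[ℂ] V))
  refine ⟨ψ, fun x => ?_⟩
  have := hψ (e x)
  have h2 : ((e x : p) : U) = κ x := rfl
  rw [h2] at this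
  rw [this]
  simp

theorem multi_embed {V : Type} [CStarAlgebra V] {β : U →⋆ₐ[ℂ] U}
    (h : Pool.Agent.P8H24.NU.Multi β) (δ : V →⋆ₐ[ℂ] V)
    (κ : V →⋆ₐ[ℂ] U) (hκ : Function.Injective κ) (hδ : ∀ v, κ (δ v) = β (κ v)) :
    Pool.Agent.P8H24.NU.Multi δ := by
  have hn : ∀ (n : ℕ) v, κ ((δ^[n]) v) = (β^[n]) (κ v) := by
    intro n
    induction n with
    | zero => intro v; rfl
    | succ n ih =>
      intro v
      rw [Function.iterate_succ_apply', Function.iterate_succ_apply', hδ, ih]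
  choose ψ hψ using ext_functional κ hκ
  intro L
  refine (h (L.map fun p => (ψ p.1, κ p.2))).congr fun N => ?_
  rw [vav, vav]
  congr 1
  refine Finset.sum_congr rfl fun n _ => ?_
  rw [List.map_map]
  congr 2
  refine List.map_congr_left fun p _ => ?_
  simp only [Function.comp_apply]
  rw [← hn, hψ]

theorem disjoint3_of {γ : U →⋆ₐ[ℂ] U} (h1 : ∀ x, Good γ x)
    (h2 : Pool.Agent.P8H24.NU.Multi γ) : Disjoint3 γ := by
  refine ⟨fun x K _ _ _ π ξ => sum_eq (h1 x K π ξ), fun r ρ x => ?_,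
    fun X _ _ T I ρ hc hρ hs f x => ?_⟩
  · have h3 := sum_eq (K := ℂ) (h2 (List.ofFn fun i => (ρ i, x i)))
    refine h3.congr fun N => ?_
    rw [smul_eq_mul]
    congr 1
    refine Finset.sum_congr rfl fun n _ => ?_
    rw [smul_eq_mul, List.map_ofFn, List.prod_ofFn]
    rfl
  · exact sum_eq (K := ℂ) (top_of_multi γ h2 T ρ hc hρ hs f x)

/-- systems generated by elements with polynomial orbits -/
theorem allDisjoint_of_orb {α : U →⋆ₐ[ℂ] U} {S : Set U} (hS : ∀ x ∈ S, OrbF α x)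
    (hd : Generates α S) : AllDisjoint α := by
  have h1 : ∀ x ∈ {x : U | ∃ y ∈ S, ∃ v w, Eigenvector α v ∧ Eigenvector α w ∧ x = v * y * w},
      OrbF α x := by
    rintro x ⟨y, hy, v, w, hv, hw, rfl⟩
    exact (hS y hy).mul hv hw
  refine ⟨?_, fun B _ β ι hι hgen => ?_⟩
  · obtain ⟨h2, h3⟩ := both_of h1 hd
    exact disjoint3_of h2 h3
  · obtain ⟨h2, h3⟩ := both_ext h1 hd hι hgen
    exact ⟨disjoint3_of h2 h3, fun V _ δ κ hκ hδ =>
      disjoint3_of (Good.embed h2 δ κ hκ hδ) (multi_embed h3 δ κ hκ hδ)⟩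

end proofs

open Pool.Agent.P8H24.PG hiding diff IsGroupAlgebra

section main

variable {Γ A : Type} [Group Γ] [CStarAlgebra A]

theorem lowRank_of_subexp {X Y : Type} [NormedAddCommGroup X] [NormedSpace ℂ X]
    [NormedAddCommGroup Y] [NormedSpace ℂ Y] (π : X → Y) (πc : X →L[ℂ] Y) (hπ : ∀ a, πc a = π a)
    (T : X → X) (x : X) (h : SubexponentialRank π T x) : LowRank πc T x := by
  intro δ hδ ε hε n₀
  obtain ⟨n, hn, k, hk, F, i1, φ, ψ, ⟨e⟩, hφ, hψ, h4⟩ := h δ hδ ε hε n₀
  have he : ∀ b, ‖e b‖ = ‖b‖ := fun b =>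
    NonUnitalStarAlgHom.norm_map e e.injective b
  have he' : ∀ b, ‖e.symm b‖ = ‖b‖ := fun b => by
    rw [← he (e.symm b), StarAlgEquiv.apply_symm_apply]
  refine ⟨n, hn, k, hk, (e : F →⋆ₐ[ℂ] Mk k).toAlgHom.toLinearMap.comp φ,
    ψ.comp (e.symm : Mk k →⋆ₐ[ℂ] F).toAlgHom.toLinearMap, fun a => ?_, fun b => ?_, fun j hj => ?_⟩
  · show ‖e (φ a)‖ ≤ ‖a‖
    rw [he]
    exact hφ a
  · show ‖ψ (e.symm b)‖ ≤ ‖b‖
    rw [← he' b]
    exact hψ _
  · show ‖ψ (e.symm (e (φ ((T^[j]) x)))) - πc ((T^[j]) x)‖ ≤ δ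
    rw [StarAlgEquiv.symm_apply_apply, hπ]
    exact h4 j hj

theorem subexp_of_ht {B : Type} [CStarAlgebra B]
    (π : A →⋆ₐ[ℂ] B) (πc : A →L[ℂ] B) (hπ : ∀ a, πc a = π a) (α : A → A)
    (h : ht π α = 0) (x : A) : LowRank πc α x := by
  refine lowRank_of πc α x (fun Ω δ k => Approximable π Ω δ k) ?_ ?_
  · rintro n δ k ⟨F, i1, φ, ψ, ⟨e⟩, -, -, hφ, hψ, h5⟩
    have he : ∀ b, ‖e b‖ = ‖b‖ := fun b =>
      NonUnitalStarAlgHom.norm_map e e.injective b
    have he' : ∀ b, ‖e.symm b‖ = ‖b‖ := fun b => by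
      rw [← he (e.symm b), StarAlgEquiv.apply_symm_apply]
    refine ⟨(e : F →⋆ₐ[ℂ] Mk k).toAlgHom.toLinearMap.comp φ,
      ψ.comp (e.symm : Mk k →⋆ₐ[ℂ] F).toAlgHom.toLinearMap, fun a => ?_, fun b => ?_,
      fun j hj => ?_⟩
    · show ‖e (φ a)‖ ≤ ‖a‖
      rw [he]
      exact hφ a
    · show ‖ψ (e.symm b)‖ ≤ ‖b‖
      rw [← he' b]
      exact hψ _
    · show ‖ψ (e.symm (e (φ ((α^[j]) x)))) - πc ((α^[j]) x)‖ ≤ δ
      rw [StarAlgEquiv.symm_apply_apply, hπ]
      exact (h5 _ (Set.mem_iUnion.2 ⟨⟨j, hj⟩, x, rfl, rfl⟩)).le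
  · intro δ hδ
    have h1 := le_iSup₂ (f := fun (Ω : Finset A) (δ : {δ : ℝ // 0 < δ}) =>
      limsup (fun n : ℕ => ENNReal.log (rcp π (⋃ j : Fin n, (α^[(j : ℕ)]) '' (Ω : Set A)) δ) /
        (n : EReal)) atTop) ({x} : Finset A) ⟨δ, hδ⟩
    rw [Finset.coe_singleton] at h1
    exact h1.trans h.le

/-- the unitary representation -/
def toU {u : Γ → A} (hu : IsGroupAlgebra u) : Γ →* unitary A :=
  MonoidHom.mk' (fun g => ⟨u g, hu.unit g⟩) fun g h => Subtype.ext (hu.mul g h)

theorem toU_ga {u : Γ → A} (hu : IsGroupAlgebra u) :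
    Pool.Agent.P8H24.PG.IsGroupAlgebra (toU hu) where
  dense := hu.dense
  lift H _ _ _ v := hu.lift (H →L[ℂ] H) (fun g => v g) (fun g => (v g).2) fun g h => by
    rw [map_mul]
    rfl

theorem main_of (σ : Γ ≃* Γ) (hσ : CoveredBySolvable σ) (u : Γ → A)
    (hu : IsGroupAlgebra u) (α : A →⋆ₐ[ℂ] A) (hα : Covers u σ α) {Y : Type}
    [NormedAddCommGroup Y] [NormedSpace ℂ Y] (π : A →L[ℂ] Y) (hπ : ∀ a, ‖π a‖ = ‖a‖)
    (h : ∀ g, LowRank π α (u g)) : (∀ g, NilpotentType σ g) ∧ AllDisjoint α := by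
  have h1 : ∀ g, ∃ m : ℕ, 0 < m ∧
      (∃ k : ℕ, (Pool.Agent.P8H24.NU.dm (Pool.Agent.P8H24.NU.itm σ.toMonoidHom m))^[k] g = 1) ∧
      Group.IsNilpotent (Subgroup.closure
        (Pool.Agent.P8H24.NU.Ds (Pool.Agent.P8H24.NU.itm σ.toMonoidHom m) g)) := fun g =>
    nt_all (toU hu) (toU_ga hu) π hπ σ α hα h g (hσ g)
  refine ⟨h1, ?_⟩
  have hP : Pool.Agent.P8H24.NU.Proj u σ.toMonoidHom α :=
    ⟨hu.unit, fun g h => ⟨1, norm_one, by rw [hu.mul, one_smul]⟩, hα⟩
  refine allDisjoint_of_orb (S := Set.range u) ?_ ?_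
  · rintro _ ⟨g, rfl⟩
    obtain ⟨m, hm, hk, hn⟩ := h1 g
    exact Pool.Agent.P8H24.NU.proj_orb hP ⟨m, hm, hk, Group.IsNilpotent.isVirtuallyNilpotent hn⟩
  · refine top_le_iff.1 ?_
    rw [← hu.dense]
    refine Submodule.topologicalClosure_mono (Submodule.span_mono ?_)
    rintro x ⟨g, rfl⟩
    exact ⟨_, ⟨g, rfl⟩, 1, 1, ⟨1, norm_one, by rw [map_one, one_smul]⟩,
      ⟨1, norm_one, by rw [map_one, one_smul]⟩, by rw [one_mul, mul_one]⟩

end main

/-- **Q1 for the group automorphisms of the C*-algebras of virtually solvable groups.**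

Let `Γ` be a group and `σ` an automorphism such that each element of `Γ` lies in a virtually solvable
subgroup which is invariant under some `σᵐ`, `m > 0` (for example, `Γ` is virtually solvable). Let `A`
be the full group C*-algebra of `Γ`, with the canonical unitaries `u g`, and let `α` map each `u g` to a
scalar multiple of `u (σ g)`. If the Voiculescu-Brown entropy `ht(α)` is zero, or if only the orbits of
the `u g` have subexponential rank for approximations through `M_k` by linear contractions, then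

1. each `g` is of nilpotent type for `σ`: `Dᵏ g = 1` for the map `D h = h⁻¹ σᵐ(h)`, for some `m > 0` and
`k`, and `D g`, `D² g`, ... generate a nilpotent group;

2. `α` is Möbius disjoint: for all states, in the strong operator topology of every representation, for
the products of the values of any number of bounded functionals, and for all continuous functions on
all compact systems of functionals (such as the state space); and so is each system `(B, β)` in which
the products `v * ι a * w`, for an equivariant `ι : A → B` and eigenvectors `v`, `w` of `β`, span a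
dense subspace, and each subsystem of such a system. -/
theorem result (Γ : Type) [Group Γ] (σ : Γ ≃* Γ) (hσ : CoveredBySolvable σ) (A : Type)
    [CStarAlgebra A] (u : Γ → A) (hu : IsGroupAlgebra u) (α : A →⋆ₐ[ℂ] A) (hα : Covers u σ α)
    (h : EntropyZero α ∨ SubexponentialRankOn α (Set.range u)) :
    (∀ g, NilpotentType σ g) ∧ AllDisjoint α := by
  rcases h with ⟨H, _, _, _, π, hπ, h⟩ | ⟨Y, _, _, π, h⟩
  · have hiso : ∀ x : A, ‖π x‖ = ‖x‖ := fun x => NonUnitalStarAlgHom.norm_map π hπ x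
    let πc : A →L[ℂ] (H →L[ℂ] H) := LinearMap.mkContinuous π.toAlgHom.toLinearMap 1 fun x => by
      rw [one_mul]
      exact (hiso x).le
    exact main_of σ hσ u hu α hα πc hiso fun g => subexp_of_ht π πc (fun _ => rfl) α h _
  · exact main_of σ hσ u hu α hα π.toContinuousLinearMap π.norm_map fun g =>
      lowRank_of_subexp π _ (fun _ => rfl) α _ (h _ ⟨g, rfl⟩)

end Pool.Agent.Results.MP_7a8f48_an.VirtuallySolvableGroups
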